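import Mathlib

/-! # H35KK, X1: finite abelian p-groups are determined by the numbers of elements killed by p^k -/

namespace H35KK

/-- The number of elements killed by p^k. -/
noncomputable def ck (p k : ℕ) (X : Type*) [AddCommGroup X] : ℕ := Nat.card {x : X // p ^ k • x = 0}

theorem ck_congr {p k : ℕ} {X Y : Type*} [AddCommGroup X] [AddCommGroup Y] (e : X ≃+ Y) : ck p k X = ck p k Y := by
  refine Nat.card_congr (e.toEquiv.subtypeEquiv fun x => ?_)
  show p ^ k • x = 0 ↔ p ^ k • e x = 0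
  rw [← map_nsmul]
  exact (AddEquiv.map_eq_zero_iff e).symm

theorem ck_pi {p k : ℕ} {ι : Type*} [Fintype ι] {X : ι → Type*} [∀ i, AddCommGroup (X i)] :
    ck p k (∀ i, X i) = ∏ i, ck p k (X i) := by
  unfold ck
  rw [← Nat.card_pi]
  refine Nat.card_congr ((Equiv.subtypeEquivRight fun x => ?_).trans Equiv.subtypePiEquivPi)
  constructor
  · intro h i
    exact congrFun h i
  · intro h
    exact funext h

theorem ck_prod {p k : ℕ} {X Y : Type*} [AddCommGroup X] [AddCommGroup Y] : ck p k (X × Y) = ck p k X * ck p k Y := by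
  unfold ck
  rw [← Nat.card_prod]
  refine Nat.card_congr ⟨fun x => (⟨x.1.1, congrArg Prod.fst x.2⟩, ⟨x.1.2, congrArg Prod.snd x.2⟩),
    fun x => ⟨(x.1.1, x.2.1), Prod.ext x.1.2 x.2.2⟩, fun x => rfl, fun x => rfl⟩

theorem ck_zmod {p : ℕ} (hp : p.Prime) (k i : ℕ) : ck p k (ZMod (p ^ i)) = p ^ min i k := by
  have hne : NeZero (p ^ i) := ⟨(pow_pos hp.pos i).ne'⟩
  have h1 := IsCyclic.card_powMonoidHom_ker (G := Multiplicative (ZMod (p ^ i))) (p ^ k)
  have h2 : ck p k (ZMod (p ^ i)) = Nat.card (powMonoidHom (p ^ k) : Multiplicative (ZMod (p ^ i)) →* Multiplicative (ZMod (p ^ i))).ker :=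
    Nat.card_congr ⟨fun x => ⟨Multiplicative.ofAdd x.1, congrArg Multiplicative.ofAdd x.2⟩,
      fun x => ⟨Multiplicative.toAdd x.1, congrArg Multiplicative.toAdd x.2⟩, fun x => rfl, fun x => rfl⟩
  have h3 : Nat.card (Multiplicative (ZMod (p ^ i))) = p ^ i := by
    rw [Nat.card_congr Multiplicative.toAdd, Nat.card_zmod]
  rw [h2, h1, h3]
  rcases le_total i k with h | h
  · rw [min_eq_left h]
    exact Nat.gcd_eq_left (pow_dvd_pow p h)
  · rw [min_eq_right h]
    exact Nat.gcd_eq_right (pow_dvd_pow p h)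

/-- The structure of a finite abelian p-group. -/
theorem struct {p : ℕ} (hp : p.Prime) (X : Type*) [AddCommGroup X] [Finite X] (hX : ∀ x : X, ∃ k : ℕ, p ^ k • x = 0) :
    ∃ (ι : Type) (_ : Fintype ι) (e : ι → ℕ), (∀ i, 1 ≤ e i) ∧ Nonempty (X ≃+ ((i : ι) → ZMod (p ^ e i))) := by
  classical
  obtain ⟨ι, hι, n, hn, ⟨f⟩⟩ := AddCommGroup.equiv_directSum_zmod_of_finite' X
  have f' := f.trans (DirectSum.addEquivProd _)
  have key : ∀ i, ∃ e : ℕ, 1 ≤ e ∧ n i = p ^ e := by
    intro i
    obtain ⟨k, hk⟩ := hX (f'.symm (Pi.single i 1))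
    have h1 : p ^ k • (Pi.single i 1 : (i : ι) → ZMod (n i)) = 0 := by
      rw [← f'.apply_symm_apply (Pi.single i 1), ← map_nsmul, hk, map_zero]
    have h2 := congrFun h1 i
    have h3 : ((p ^ k : ℕ) : ZMod (n i)) = 0 := by
      rw [Pi.smul_apply, Pi.single_eq_same, nsmul_eq_mul, mul_one, Pi.zero_apply] at h2
      exact h2
    rw [ZMod.natCast_eq_zero_iff] at h3
    obtain ⟨e, -, he⟩ := (Nat.dvd_prime_pow hp).1 h3
    refine ⟨e, ?_, he⟩
    by_contra h4
    have h5 : e = 0 := by omega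
    rw [h5, pow_zero] at he
    have h6 := hn i
    omega
  choose e he1 he2 using key
  have hne : n = fun i => p ^ e i := funext he2
  subst hne
  exact ⟨ι, hι, e, he1, ⟨f'⟩⟩

theorem min_count {ι : Type*} [Fintype ι] (e : ι → ℕ) (k : ℕ) (hk : 1 ≤ k) :
    2 * ∑ i, min (e i) k = (∑ i, min (e i) (k - 1)) + (∑ i, min (e i) (k + 1)) + Fintype.card {i // e i = k} := by
  classical
  rw [Fintype.card_subtype, Finset.card_filter, Finset.mul_sum, ← Finset.sum_add_distrib, ← Finset.sum_add_distrib]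
  refine Finset.sum_congr rfl fun i _ => ?_
  split_ifs with h
  · omega
  · omega

/-- Two finite abelian p-groups with the same numbers of elements killed by p^k are isomorphic. -/
theorem iso_of_ck {p : ℕ} (hp : p.Prime) (X Y : Type*) [AddCommGroup X] [Finite X] [AddCommGroup Y] [Finite Y]
    (hX : ∀ x : X, ∃ k : ℕ, p ^ k • x = 0) (hY : ∀ y : Y, ∃ k : ℕ, p ^ k • y = 0) (h : ∀ k, ck p k X = ck p k Y) :
    Nonempty (X ≃+ Y) := by
  classical
  obtain ⟨ι, hι, e, he, ⟨f⟩⟩ := struct hp X hX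
  obtain ⟨κ, hκ, d, hd, ⟨g⟩⟩ := struct hp Y hY
  have h1 : ∀ k, ∑ i, min (e i) k = ∑ i, min (d i) k := by
    intro k
    have h2 := h k
    rw [ck_congr f, ck_congr g, ck_pi, ck_pi] at h2
    simp only [ck_zmod hp] at h2
    rw [Finset.prod_pow_eq_pow_sum, Finset.prod_pow_eq_pow_sum] at h2
    exact Nat.pow_right_injective hp.two_le h2
  have h3 : ∀ k, Fintype.card {i // e i = k} = Fintype.card {i // d i = k} := by
    intro k
    rcases Nat.eq_zero_or_pos k with rfl | hk
    · rw [Fintype.card_eq_zero_iff.2 ⟨fun i => by have := he i.1; have := i.2; omega⟩,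
        Fintype.card_eq_zero_iff.2 ⟨fun i => by have := hd i.1; have := i.2; omega⟩]
    · have a1 := min_count e k hk
      have a2 := min_count d k hk
      rw [h1, h1, h1] at a1
      omega
  have h4 : ∀ k, Nonempty ({i // e i = k} ≃ {i // d i = k}) := fun k => Fintype.card_eq.1 (h3 k)
  let s := fun k => (h4 k).some
  obtain ⟨σ, hσ⟩ : ∃ σ : κ ≃ ι, ∀ j, e (σ j) = d j := by
    refine ⟨(Equiv.sigmaFiberEquiv d).symm.trans ((Equiv.sigmaCongrRight fun k => (s k).symm).trans (Equiv.sigmaFiberEquiv e)), fun j => ?_⟩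
    exact ((s (d j)).symm ⟨j, rfl⟩).2
  have hd' : d = fun j => e (σ j) := funext fun j => (hσ j).symm
  subst hd'
  let r : ((i : ι) → ZMod (p ^ e i)) →+ ((j : κ) → ZMod (p ^ e (σ j))) :=
    { toFun := fun u j => u (σ j)
      map_zero' := rfl
      map_add' := fun u v => rfl }
  have hr : Function.Bijective r := by
    constructor
    · intro u v huv
      funext i
      obtain ⟨j, rfl⟩ := σ.surjective i
      exact congrFun huv j
    · intro u
      exact ⟨Equiv.piCongrLeft (fun i => ZMod (p ^ e i)) σ u, funext fun j =>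
        Equiv.piCongrLeft_apply_apply (fun i => ZMod (p ^ e i)) σ u j⟩
  exact ⟨f.trans ((AddEquiv.ofBijective r hr).trans g.symm)⟩

/-- Cancellation of powers. -/
theorem ck_fin {p k : ℕ} {X : Type*} [AddCommGroup X] (d : ℕ) : ck p k (Fin d → X) = ck p k X ^ d := by
  rw [ck_pi, Finset.prod_const, Finset.card_univ, Fintype.card_fin]

/-- The counting argument: X^d is the product over ι of groups T i, with the numbers of elements of a product of two cyclic groups of order
p^(a i); the a i are the b j, every b j for d indices i. Then X is the product over κ of two cyclic groups of order p^(b j). -/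
theorem desc {p : ℕ} (hp : p.Prime) {X : Type*} [AddCommGroup X] {ι κ : Type*} [Fintype ι] [Fintype κ] {T : ι → Type*}
    [∀ i, AddCommGroup (T i)] {d : ℕ} (hd : 0 < d) (h : Nonempty ((Fin d → X) ≃+ ((i : ι) → T i))) (a : ι → ℕ) (b : κ → ℕ)
    (hT : ∀ i k, ck p k (T i) = p ^ (2 * min (a i) k)) (hfin : ∀ i, Finite (T i)) (hpp : ∀ i (x : T i), ∃ k : ℕ, p ^ k • x = 0)
    (hab : ∀ g : ℕ → ℕ, ∏ i, g (a i) = (∏ j, g (b j)) ^ d) :
    Nonempty (X ≃+ ((j : κ) → ZMod (p ^ b j) × ZMod (p ^ b j))) := by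
  classical
  obtain ⟨f⟩ := h
  have hne : ∀ j, NeZero (p ^ b j) := fun j => ⟨(pow_pos hp.pos _).ne'⟩
  have hF : Finite (Fin d → X) := Finite.of_equiv _ f.symm.toEquiv
  have hinj : Function.Injective (fun (x : X) (_ : Fin d) => x) := fun x y hxy => congrFun hxy ⟨0, hd⟩
  have hX : Finite X := Finite.of_injective _ hinj
  have hXp : ∀ x : X, ∃ k : ℕ, p ^ k • x = 0 := by
    intro x
    choose k hk using fun i => hpp i (f (fun _ => x) i)
    refine ⟨∑ i, k i, ?_⟩
    have h1 : p ^ (∑ i, k i) • f (fun _ => x) = 0 := by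
      funext i
      rw [Pi.smul_apply, ← Finset.add_sum_erase Finset.univ k (Finset.mem_univ i), pow_add, mul_comm, mul_smul, hk, smul_zero, Pi.zero_apply]
    rw [← map_nsmul, AddEquiv.map_eq_zero_iff] at h1
    exact congrFun h1 ⟨0, hd⟩
  refine iso_of_ck hp X _ hXp (fun y => ?_) fun k => ?_
  · refine ⟨∑ j, b j, funext fun j => ?_⟩
    rw [Pi.smul_apply, ← Finset.add_sum_erase Finset.univ b (Finset.mem_univ j), pow_add, mul_comm, mul_smul]
    have h1 : p ^ b j • y j = 0 := by
      refine Prod.ext ?_ ?_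
      · show p ^ b j • (y j).1 = 0
        rw [nsmul_eq_mul, ZMod.natCast_self, zero_mul]
      · show p ^ b j • (y j).2 = 0
        rw [nsmul_eq_mul, ZMod.natCast_self, zero_mul]
    rw [h1, smul_zero]
    rfl
  · have h1 := ck_congr (p := p) (k := k) f
    rw [ck_fin, ck_pi] at h1
    simp only [hT] at h1
    rw [hab (fun i => p ^ (2 * min i k))] at h1
    have h2 := Nat.pow_left_injective hd.ne' h1
    rw [h2, ck_pi]
    refine Finset.prod_congr rfl fun j _ => ?_
    rw [ck_prod, ck_zmod hp, ← pow_add, two_mul]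

end H35KK
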