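import Mathlib
import Pool.Agent.Lib.H13V.D
import Pool.Agent.Lib.SSG.Z.A6
import Pool.Agent.Lib.SSG.Z.L1

/-! # H35KK, X2: isomorphisms of p-primary parts -/

namespace H35KK

open SSG H13V

section gen

variable {p : ℕ} {X Y : Type} [AddCommGroup X] [AddCommGroup Y]

/-- A homomorphism on the p-primary parts. -/
def pgm (p : ℕ) (f : X →+ Y) : pg X p →+ pg Y p where
  toFun x := ⟨f x.1, by
    obtain ⟨k, hk⟩ := x.2
    exact ⟨k, by rw [← map_nsmul, hk, map_zero]⟩⟩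
  map_zero' := Subtype.ext (map_zero f)
  map_add' x y := Subtype.ext (map_add f x.1 y.1)

theorem pgm_val (f : X →+ Y) (x : pg X p) : (pgm p f x).1 = f x.1 := rfl

/-- Two homomorphisms whose composites are multiplications by a number prime to p. -/
theorem pg_iso (hp : p.Prime) {m : ℕ} (hm : ¬ p ∣ m) (f : X →+ Y) (g : Y →+ X) (hgf : ∀ x, g (f x) = m • x)
    (hfg : ∀ y, f (g y) = m • y) : Nonempty (pg X p ≃+ pg Y p) := by
  refine ⟨AddEquiv.ofBijective (pgm p f) ⟨?_, fun y => ?_⟩⟩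
  · rw [injective_iff_map_eq_zero]
    intro x hx
    have h1 : f x.1 = 0 := congrArg Subtype.val hx
    refine Subtype.ext (pp_inj hp hm x.2 ?_)
    rw [← hgf, h1, map_zero]
  · obtain ⟨n, hn⟩ := pp_surj hp hm y.2
    refine ⟨⟨g (n • y.1), ?_⟩, Subtype.ext ?_⟩
    · obtain ⟨k, hk⟩ := y.2
      exact ⟨k, by rw [← map_nsmul, smul_comm, hk, smul_zero, map_zero]⟩
    · show f (g (n • y.1)) = y.1
      rw [hfg, hn]

/-- The index two step. -/
theorem two_iso (hp : p.Prime) (hp2 : p ≠ 2) {d : ℕ} (hd : ¬ p ∣ d) (r : X →+ Y) (k : Y →+ X) (T a : Y →+ Y)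
    (hkr : ∀ x, k (r x) = 2 • x) (hrk : ∀ y, r (k y) = y + T y) (hTT : ∀ y, T (T y) = y) (haa : ∀ y, a (a y) = -(d • y))
    (hTa : ∀ y, T (a y) = -(a (T y))) : Nonempty ((Fin 2 → pg X p) ≃+ pg Y p) := by
  have h2 : ¬ p ∣ 2 := fun h => hp2 ((Nat.prime_dvd_prime_iff_eq hp Nat.prime_two).1 h)
  have hTr : ∀ x, T (r x) = r x := by
    intro x
    have h1 := hrk (r x)
    rw [hkr, map_nsmul, two_nsmul] at h1
    exact (add_left_cancel h1).symm
  let φ : (Fin 2 → pg X p) →+ pg Y p :=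
    { toFun := fun x => pgm p r (x 0) + pgm p a (pgm p r (x 1))
      map_zero' := by
        show pgm p r 0 + pgm p a (pgm p r 0) = 0
        rw [map_zero, map_zero, add_zero]
      map_add' := fun x y => by
        show pgm p r (x 0 + y 0) + pgm p a (pgm p r (x 1 + y 1)) = _
        rw [map_add, map_add, map_add]
        abel }
  refine ⟨AddEquiv.ofBijective φ ⟨?_, fun y => ?_⟩⟩
  · rw [injective_iff_map_eq_zero]
    intro x hx
    have h1 : r (x 0).1 + a (r (x 1).1) = 0 := congrArg Subtype.val hx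
    have h3 : r (k (a (r (x 1).1))) = 0 := by
      rw [hrk, hTa, hTr, add_neg_cancel]
    have h4 : k (a (r (x 1).1)) = 0 := by
      refine pp_inj hp h2 ?_ ?_
      · obtain ⟨n, hn⟩ := (x 1).2
        exact ⟨n, by rw [← map_nsmul, ← map_nsmul, ← map_nsmul, hn, map_zero, map_zero, map_zero]⟩
      · rw [← hkr, h3, map_zero]
    have h5 := congrArg k h1
    rw [map_add, hkr, h4, add_zero, map_zero] at h5
    have h6 : (x 0).1 = 0 := pp_inj hp h2 (x 0).2 h5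
    rw [h6, map_zero, zero_add] at h1
    have h7 := congrArg a h1
    rw [haa, map_zero, neg_eq_zero] at h7
    have h8 : r (x 1).1 = 0 := by
      refine pp_inj hp hd ?_ h7
      obtain ⟨n, hn⟩ := (x 1).2
      exact ⟨n, by rw [← map_nsmul, hn, map_zero]⟩
    have h9 : (x 1).1 = 0 := by
      refine pp_inj hp h2 (x 1).2 ?_
      rw [← hkr, h8, map_zero]
    funext i
    fin_cases i
    · exact Subtype.ext h6
    · exact Subtype.ext h9
  · -- 2 d y = r (d k y) - a r k a y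
    have h2d : ¬ p ∣ 2 * d := fun h => ((hp.dvd_mul).1 h).elim h2 hd
    obtain ⟨n, hn⟩ := pp_surj hp h2d y.2
    have key : ∀ z : Y, (2 * d) • z = r (d • k z) + a (r (-(k (a z)))) := by
      intro z
      have e1 : a (r (-(k (a z)))) = d • z - d • T z := by
        rw [map_neg, map_neg, hrk, map_add, haa, hTa, map_neg, haa]
        abel
      rw [map_nsmul, hrk, e1, smul_add, mul_smul, two_nsmul]
      abel
    obtain ⟨j, hj⟩ := y.2
    have hz : p ^ j • (n • y.1) = 0 := by rw [smul_comm, hj, smul_zero]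
    refine ⟨![⟨d • k (n • y.1), j, ?_⟩, ⟨-(k (a (n • y.1))), j, ?_⟩], Subtype.ext ?_⟩
    · rw [smul_comm, ← map_nsmul, hz, map_zero, smul_zero]
    · rw [smul_neg, ← map_nsmul, ← map_nsmul, hz, map_zero, map_zero, neg_zero]
    · show r (d • k (n • y.1)) + a (r (-(k (a (n • y.1))))) = y.1
      rw [← key, hn]

end gen

section quot

variable {M : Type} [AddCommGroup M]

/-- Two quotients by the same subgroup have isomorphic p-primary parts. -/
theorem quot_iso (Z₁ Z₂ B : AddSubgroup M) (p : ℕ)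
    (key : ∀ c : M, (∃ k : ℕ, p ^ k • c ∈ B) → (c ∈ Z₁ ↔ c ∈ Z₂)) :
    Nonempty (pg (Z₁ ⧸ B.addSubgroupOf Z₁) p ≃+ pg (Z₂ ⧸ B.addSubgroupOf Z₂) p) := by
  classical
  -- the common group
  let Z' : AddSubgroup M :=
    { carrier := {c | c ∈ Z₁ ∧ ∃ k : ℕ, p ^ k • c ∈ B}
      zero_mem' := ⟨Z₁.zero_mem, 0, by rw [smul_zero]; exact B.zero_mem⟩
      add_mem' := by
        rintro a b ⟨ha, k, hk⟩ ⟨hb, l, hl⟩
        refine ⟨Z₁.add_mem ha hb, k + l, ?_⟩
        have h1 : p ^ (k + l) • a ∈ B := by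
          rw [pow_add, mul_comm, mul_smul]
          exact B.nsmul_mem hk _
        have h2 : p ^ (k + l) • b ∈ B := by
          rw [pow_add, mul_smul]
          exact B.nsmul_mem hl _
        rw [smul_add]
        exact B.add_mem h1 h2
      neg_mem' := by
        rintro a ⟨ha, k, hk⟩
        refine ⟨Z₁.neg_mem ha, k, ?_⟩
        rw [smul_neg]
        exact B.neg_mem hk }
  have main : ∀ Z : AddSubgroup M, (∀ c : M, (∃ k : ℕ, p ^ k • c ∈ B) → (c ∈ Z₁ ↔ c ∈ Z)) →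
      Nonempty ((Z' ⧸ B.addSubgroupOf Z') ≃+ pg (Z ⧸ B.addSubgroupOf Z) p) := by
    intro Z hZ
    have hz : ∀ (c : Z) (n : ℕ), (n • QuotientAddGroup.mk' (B.addSubgroupOf Z) c = 0 ↔ n • c.1 ∈ B) := by
      intro c n
      rw [← map_nsmul]
      refine (QuotientAddGroup.eq_zero_iff (N := B.addSubgroupOf Z) (n • c)).trans ?_
      exact AddSubgroup.mem_addSubgroupOf
    let f : Z' →+ pg (Z ⧸ B.addSubgroupOf Z) p :=
      { toFun := fun c => ⟨QuotientAddGroup.mk' (B.addSubgroupOf Z) ⟨c.1, (hZ c.1 c.2.2).1 c.2.1⟩, by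
          obtain ⟨k, hk⟩ := c.2.2
          exact ⟨k, (hz _ _).2 hk⟩⟩
        map_zero' := Subtype.ext (map_zero _)
        map_add' := fun a b => Subtype.ext (map_add (QuotientAddGroup.mk' (B.addSubgroupOf Z)) ⟨a.1, _⟩ ⟨b.1, _⟩) }
    have hs : Function.Surjective f := by
      rintro ⟨z, k, hk⟩
      obtain ⟨c, rfl⟩ := QuotientAddGroup.mk'_surjective _ z
      have h1 := (hz c _).1 hk
      exact ⟨⟨c.1, (hZ c.1 ⟨k, h1⟩).2 c.2, k, h1⟩, Subtype.ext rfl⟩
    have hk : f.ker = B.addSubgroupOf Z' := by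
      ext c
      rw [AddMonoidHom.mem_ker, AddSubgroup.mem_addSubgroupOf]
      constructor
      · intro h
        have h1 := congrArg Subtype.val h
        have h2 := (hz ⟨c.1, (hZ c.1 c.2.2).1 c.2.1⟩ 1).1 (by rw [one_nsmul]; exact h1)
        rwa [one_nsmul] at h2
      · intro h
        refine Subtype.ext ?_
        have h2 := (hz ⟨c.1, (hZ c.1 c.2.2).1 c.2.1⟩ 1).2 (by rw [one_nsmul]; exact h)
        rwa [one_nsmul] at h2
    exact ⟨(QuotientAddGroup.quotientAddEquivOfEq hk.symm).trans (QuotientAddGroup.quotientKerEquivOfSurjective f hs)⟩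
  obtain ⟨e₁⟩ := main Z₁ fun c _ => Iff.rfl
  obtain ⟨e₂⟩ := main Z₂ key
  exact ⟨e₁.symm.trans e₂⟩

end quot

section ls

variable {G A G' A' : Type} [Group G] [AddCommGroup A] [Group G'] [AddCommGroup A'] {S : LS G A} {S' : LS G' A'} {e : G' →* G} {φ : A →+ A'}

/-- Systems related by morphisms back and forth. -/
theorem hom_iso {p : ℕ} (hp : p.Prime) {m : ℕ} (hm : ¬ p ∣ m) (h : Hom S S' e φ) {e₁ : G →* G'} {φ₁ : A' →+ A}
    (h' : Hom S' S e₁ φ₁) (he : ∀ g, e (e₁ g) = g) (he' : ∀ g, e₁ (e g) = g) (hm1 : ∀ a, φ₁ (φ a) = m • a)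
    (hm2 : ∀ a, φ (φ₁ a) = m • a) : Nonempty (pg S.Sha p ≃+ pg S'.Sha p) :=
  pg_iso hp hm h.map h'.map (h.map_back h' he hm1) (h'.map_back h he' hm2)

theorem res_res_iso (S : LS G A) {H K : Subgroup G} (hle : H ≤ K) {p : ℕ} (hp : p.Prime) :
    Nonempty (pg ((S.res K).res (H.subgroupOf K)).Sha p ≃+ pg (S.res H).Sha p) := by
  have h : Hom ((S.res K).res (H.subgroupOf K)) (S.res H) (Subgroup.subgroupOfEquivOfLe hle).symm.toMonoidHom
      (AddMonoidHom.id A) := by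
    refine ⟨fun g a => rfl, ?_, ?_⟩
    · rintro _ ⟨_, ⟨u, hu, rfl⟩, rfl⟩
      exact ⟨_, ⟨u, hu, rfl⟩, fun g hg => hg⟩
    · rintro _ ⟨d, hd, rfl⟩
      exact ⟨_, ⟨_, ⟨d, hd, rfl⟩, rfl⟩, fun g hg => hg⟩
  have h' : Hom (S.res H) ((S.res K).res (H.subgroupOf K)) (Subgroup.subgroupOfEquivOfLe hle).toMonoidHom
      (AddMonoidHom.id A) := by
    refine ⟨fun g a => rfl, ?_, ?_⟩
    · rintro _ ⟨u, hu, rfl⟩
      exact ⟨_, ⟨_, ⟨u, hu, rfl⟩, rfl⟩, fun g hg => hg⟩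
    · rintro _ ⟨_, ⟨d, hd, rfl⟩, rfl⟩
      exact ⟨_, ⟨d, hd, rfl⟩, fun g hg => hg⟩
  exact hom_iso hp hp.not_dvd_one h h' (fun g => rfl) (fun g => rfl) (fun a => (one_nsmul a).symm)
    (fun a => (one_nsmul a).symm)

theorem index_two_iso {S : LS G A} (hS : S.Conj) (H : Subgroup G) (hH : ∃ u ∈ S.U, u ≤ H) (hi : H.index = 2) {p d : ℕ} (hp : p.Prime)
    (hp2 : p ≠ 2) (hd : ¬ p ∣ d) (α : A →+ A) (hαα : ∀ P, α (α P) = -(d • P)) (hα : ∀ h ∈ H, ∀ P, α (S.act h P) = S.act h (α P))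
    (hα' : ∀ g, g ∉ H → ∀ P, α (S.act g P) = -(S.act g (α P))) :
    Nonempty ((Fin 2 → pg S.Sha p) ≃+ pg (S.res H).Sha p) := by
  have hN : H.Normal := Subgroup.normal_of_index_eq_two hi
  obtain ⟨τ, hτ⟩ : ∃ τ, τ ∉ H := by
    by_contra hc
    push Not at hc
    have h1 : H = ⊤ := (Subgroup.eq_top_iff' H).2 hc
    rw [h1, Subgroup.index_top] at hi
    omega
  obtain ⟨k, hk1, hk2⟩ := exists_cor hS H hH hi hτ
  have ha : Hom (S.res H) (S.res H) (MonoidHom.id H) α :=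
    ⟨fun g a => hα g g.2 a, fun u hu => ⟨u, hu, fun g hg => hg⟩, fun d hd => ⟨d, hd, fun g hg => hg⟩⟩
  have hττ : τ * τ ∈ H := by rw [Subgroup.mul_mem_iff_of_index_two hi]
  refine two_iso hp hp2 hd (res_hom S H).map k (conj_hom hS H τ).map ha.map hk1 hk2 (conj_twice hS H hττ) ?_ ?_
  · intro y
    obtain ⟨c, rfl⟩ := (S.res H).cl_surj y
    rw [ha.map_cl, ha.map_cl, ← map_nsmul, ← map_neg]
    refine (LS.cl_eq _ _).2 ⟨0, fun g => ?_⟩
    rw [map_zero, sub_zero, add_zero]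
    show α (α (c.1 g)) = -(d • c.1 g)
    exact hαα _
  · intro y
    obtain ⟨c, rfl⟩ := (S.res H).cl_surj y
    rw [ha.map_cl, Hom.map_cl, Hom.map_cl, ha.map_cl, ← map_neg]
    refine (LS.cl_eq _ _).2 ⟨0, fun g => ?_⟩
    rw [map_zero, sub_zero, add_zero]
    show S.act τ (α (c.1 (cj H τ g))) = -(α (S.act τ (c.1 (cj H τ g))))
    rw [hα' τ hτ, neg_neg]

end ls

end H35KK
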