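import Mathlib
import Pool.Agent.Lib.H35KK.X2
import Pool.Agent.Lib.H13V.Stm
import Pool.Agent.Lib.SSG.Z.L2
import Pool.Agent.Lib.SSG.Z.L3
import Pool.Agent.Lib.SSG.Z.L4
import Pool.Agent.Lib.SSG.Z.L6
import Pool.Agent.Lib.SSG.Z.B7
import Pool.Agent.Lib.H55K.NK3
import Pool.Agent.Lib.H55K.FB9B
import Pool.Agent.Lib.H13R.K0

/-! # H35KK, X3: the p-primary part of Sha over K and over F K -/

open NumberField IsDedekindDomain WeierstrassCurve H16C

namespace H35KK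

open SSG H13V

section L3

open H55P

open Classical in
theorem closure_iso {k : Type} [Field k] [CharZero k] (W : WeierstrassCurve k) (K : Type) [Field K] [Algebra k K] [FiniteDimensional k K] {Ω : Type} [Field Ω]
    [Algebra k Ω] [IsAlgClosed Ω] [Algebra.IsAlgebraic k Ω] (ι : K →ₐ[k] Ω) {p : ℕ} (hp : p.Prime) :
    Nonempty (pg (galS (W⁄K) (AlgebraicClosure K)).Sha p ≃+ pg ((galS W Ω).res ι.fieldRange.fixingSubgroup).Sha p) := by
  obtain ⟨Φ, ε, θ, h1, h2⟩ := l3_core W K ι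
  have hA : Hom (galS (W⁄K) (AlgebraicClosure K)) ((galS W Ω).res ι.fieldRange.fixingSubgroup) ε.symm.toMonoidHom Φ.toAddMonoidHom := by
    refine ⟨fun g a => ?_, ?_, ?_⟩
    · show Φ (ac (W⁄K) (ε.symm g) a) = ac W (g : Ω ≃ₐ[k] Ω) (Φ a)
      rw [h2, ε.apply_symm_apply]
    · rintro _ ⟨L, hL, rfl⟩
      obtain ⟨L', hL', h3⟩ := l3_down K θ L hL
      refine ⟨_, ⟨L'.fixingSubgroup, ⟨L', hL', rfl⟩, rfl⟩, fun g hg => ?_⟩
      apply h3
      intro x hx
      have h4 : (g : Ω ≃ₐ[k] Ω) ∈ L'.fixingSubgroup := hg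
      rw [IntermediateField.mem_fixingSubgroup_iff] at h4
      have h5 := h1 (ε.symm g) x
      rw [ε.apply_symm_apply] at h5
      exact h5.symm.trans (h4 x hx)
    · rintro _ ⟨_, ⟨V, hV, rfl⟩, rfl⟩
      refine ⟨_, ⟨V.comap ((θ : AlgebraicClosure K ≃+* Ω) : AlgebraicClosure K →+* Ω), l3_top _ V hV, rfl⟩, fun g hg => ?_⟩
      have hg' : Dec V (g : Ω ≃ₐ[k] Ω) := hg
      show Dec _ (ε.symm g)
      intro x
      have h5 := h1 (ε.symm g) (θ x)
      rw [ε.apply_symm_apply, θ.symm_apply_apply] at h5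
      have h6 := hg' (θ x)
      rw [h5] at h6
      exact h6
  have hB : Hom ((galS W Ω).res ι.fieldRange.fixingSubgroup) (galS (W⁄K) (AlgebraicClosure K)) ε.toMonoidHom Φ.symm.toAddMonoidHom := by
    refine ⟨fun g a => ?_, ?_, ?_⟩
    · show Φ.symm (ac W ((ε g : ι.fieldRange.fixingSubgroup) : Ω ≃ₐ[k] Ω) a) = ac (W⁄K) g (Φ.symm a)
      apply Φ.injective
      rw [h2, Φ.apply_symm_apply, Φ.apply_symm_apply]
    · rintro _ ⟨_, ⟨L', hL', rfl⟩, rfl⟩
      obtain ⟨L, hL, h3⟩ := l3_up K θ L' hL'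
      refine ⟨_, ⟨L, hL, rfl⟩, fun g hg => ?_⟩
      show ((ε g : ι.fieldRange.fixingSubgroup) : Ω ≃ₐ[k] Ω) ∈ L'.fixingSubgroup
      rw [IntermediateField.mem_fixingSubgroup_iff]
      intro x hx
      rw [h1]
      exact h3 g hg x hx
    · rintro _ ⟨V, hV, rfl⟩
      refine ⟨_, ⟨_, ⟨V.comap ((θ.symm : Ω ≃+* AlgebraicClosure K) : Ω →+* AlgebraicClosure K), l3_top _ V hV, rfl⟩, rfl⟩, fun g hg => ?_⟩
      have hg' : Dec V g := hg
      show Dec _ ((ε g : ι.fieldRange.fixingSubgroup) : Ω ≃ₐ[k] Ω)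
      intro x
      have h6 := hg' (θ.symm x)
      rw [h1]
      rw [ValuationSubring.mem_comap, ValuationSubring.mem_comap]
      show θ.symm (θ (g (θ.symm x))) ∈ V ↔ θ.symm x ∈ V
      rw [θ.symm_apply_apply]
      exact h6
  refine hom_iso hp (m := 1) hp.not_dvd_one hA hB (fun g => ε.symm_apply_apply g) (fun g => ε.apply_symm_apply g) (fun a => ?_) (fun a => ?_)
  · rw [one_nsmul]
    exact Φ.symm_apply_apply a
  · rw [one_nsmul]
    exact Φ.apply_symm_apply a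

open Classical in
theorem base_isoX {k : Type} [Field k] [CharZero k] (W : WeierstrassCurve k) {F : Type} [Field F] [Algebra k F] [FiniteDimensional k F] {Ω : Type} [Field Ω]
    [Algebra k Ω] [Algebra F Ω] [IsScalarTower k F Ω] [IsAlgClosed Ω] [Algebra.IsAlgebraic k Ω] (N : IntermediateField F Ω) {p : ℕ}
    (hp : p.Prime) : Nonempty (pg ((galS (W⁄F) Ω).res N.fixingSubgroup).Sha p ≃+
      pg ((galS W Ω).res (N.restrictScalars k).fixingSubgroup).Sha p) := by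
  obtain ⟨φ₀, hφ₀⟩ := base_iso (F := F) (Ω := Ω) W
  obtain ⟨e₁, he₁⟩ : ∃ e₁ : N.fixingSubgroup →* (N.restrictScalars k).fixingSubgroup,
      ∀ s, ((e₁ s : (N.restrictScalars k).fixingSubgroup) : Ω ≃ₐ[k] Ω) = (s : Ω ≃ₐ[F] Ω).restrictScalars k :=
    ⟨{ toFun := fun s => ⟨(s : Ω ≃ₐ[F] Ω).restrictScalars k, Z11_mem N s.1 s.2⟩
       map_one' := rfl
       map_mul' := fun s t => rfl }, fun s => rfl⟩
  have hbij : Function.Bijective e₁ := by
    constructor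
    · intro s t hst
      have h1 : (s : Ω ≃ₐ[F] Ω).restrictScalars k = (t : Ω ≃ₐ[F] Ω).restrictScalars k := by
        rw [← he₁, ← he₁, hst]
      apply Subtype.ext
      exact AlgEquiv.ext fun x => congrArg (fun f : Ω ≃ₐ[k] Ω => f x) h1
    · intro t
      obtain ⟨s, hs, hs'⟩ := Z11_lift N t.1 t.2
      exact ⟨⟨s, hs'⟩, Subtype.ext (by rw [he₁]; exact hs)⟩
  obtain ⟨E, hE⟩ : ∃ E : N.fixingSubgroup ≃* (N.restrictScalars k).fixingSubgroup, ∀ s, E s = e₁ s :=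
    ⟨MulEquiv.ofBijective e₁ hbij, fun s => rfl⟩
  have hEs : ∀ t, e₁ (E.symm t) = t := fun t => by rw [← hE, MulEquiv.apply_symm_apply]
  have hsE : ∀ s, E.symm (e₁ s) = s := fun s => by rw [← hE, MulEquiv.symm_apply_apply]
  have hpt : ∀ t x, ((E.symm t : N.fixingSubgroup) : Ω ≃ₐ[F] Ω) x
      = ((t : (N.restrictScalars k).fixingSubgroup) : Ω ≃ₐ[k] Ω) x := by
    intro t x
    conv_rhs => rw [← hEs t, he₁]
    rfl
  have hpt' : ∀ s x, ((e₁ s : (N.restrictScalars k).fixingSubgroup) : Ω ≃ₐ[k] Ω) x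
      = ((s : N.fixingSubgroup) : Ω ≃ₐ[F] Ω) x := by
    intro s x
    rw [he₁]
    rfl
  have h : Hom ((galS (W⁄F) Ω).res N.fixingSubgroup) ((galS W Ω).res (N.restrictScalars k).fixingSubgroup)
      E.symm.toMonoidHom (φ₀.symm.toAddMonoidHom) := by
    refine ⟨fun g a => ?_, ?_, ?_⟩
    · apply φ₀.injective
      show φ₀ (φ₀.symm (ac (W⁄F) ((E.symm g : N.fixingSubgroup) : Ω ≃ₐ[F] Ω) a))
        = φ₀ (ac W ((g : (N.restrictScalars k).fixingSubgroup) : Ω ≃ₐ[k] Ω) (φ₀.symm a))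
      have e1 : ((g : (N.restrictScalars k).fixingSubgroup) : Ω ≃ₐ[k] Ω)
          = ((E.symm g : N.fixingSubgroup) : Ω ≃ₐ[F] Ω).restrictScalars k := by
        rw [← he₁, hEs]
      rw [AddEquiv.apply_symm_apply, e1, hφ₀, AddEquiv.apply_symm_apply]
    · rintro _ ⟨_, ⟨L, hL, rfl⟩, rfl⟩
      haveI : FiniteDimensional F L := hL
      have hfin : FiniteDimensional k (L.restrictScalars k) := FiniteDimensional.trans k F L
      refine ⟨_, ⟨_, ⟨L.restrictScalars k, hfin, rfl⟩, rfl⟩, fun g hg => ?_⟩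
      have hg' : ((g : (N.restrictScalars k).fixingSubgroup) : Ω ≃ₐ[k] Ω) ∈ (L.restrictScalars k).fixingSubgroup := hg
      show ((E.symm g : N.fixingSubgroup) : Ω ≃ₐ[F] Ω) ∈ L.fixingSubgroup
      rw [IntermediateField.mem_fixingSubgroup_iff] at hg' ⊢
      intro x hx
      rw [hpt]
      exact hg' x hx
    · rintro _ ⟨_, ⟨V, hV, rfl⟩, rfl⟩
      refine ⟨_, ⟨_, ⟨V, hV, rfl⟩, rfl⟩, fun g hg => ?_⟩
      intro x
      show ((E.symm g : N.fixingSubgroup) : Ω ≃ₐ[F] Ω) x ∈ V ↔ x ∈ V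
      rw [hpt]
      exact hg x
  have h' : Hom ((galS W Ω).res (N.restrictScalars k).fixingSubgroup) ((galS (W⁄F) Ω).res N.fixingSubgroup)
      e₁ (φ₀.toAddMonoidHom) := by
    refine ⟨fun g a => ?_, ?_, ?_⟩
    · show φ₀ (ac W ((e₁ g : (N.restrictScalars k).fixingSubgroup) : Ω ≃ₐ[k] Ω) a)
        = ac (W⁄F) ((g : N.fixingSubgroup) : Ω ≃ₐ[F] Ω) (φ₀ a)
      rw [he₁, hφ₀]
    · rintro _ ⟨_, ⟨L, hL, rfl⟩, rfl⟩
      haveI : FiniteDimensional k L := hL
      obtain ⟨L', hL', hg⟩ := Z11_field (F := F) L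
      refine ⟨_, ⟨_, ⟨L', hL', rfl⟩, rfl⟩, fun g hg' => ?_⟩
      show ((e₁ g : (N.restrictScalars k).fixingSubgroup) : Ω ≃ₐ[k] Ω) ∈ L.fixingSubgroup
      rw [he₁]
      exact hg _ hg'
    · rintro _ ⟨_, ⟨V, hV, rfl⟩, rfl⟩
      refine ⟨_, ⟨_, ⟨V, hV, rfl⟩, rfl⟩, fun g hg => ?_⟩
      intro x
      show ((e₁ g : (N.restrictScalars k).fixingSubgroup) : Ω ≃ₐ[k] Ω) x ∈ V ↔ x ∈ V
      rw [hpt']
      exact hg x
  refine hom_iso hp hp.not_dvd_one h h' (fun g => hsE g) (fun g => hEs g) (fun a => ?_) (fun a => ?_)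
  · rw [one_nsmul]
    exact φ₀.apply_symm_apply a
  · rw [one_nsmul]
    exact φ₀.symm_apply_apply a


end L3

/-- One factor. -/
def fin_one {X : Type*} [AddCommGroup X] : (Fin 1 → X) ≃+ X where
  toFun x := x 0
  invFun x := fun _ => x
  left_inv x := funext fun i => by
    fin_cases i
    rfl
  right_inv x := rfl
  map_add' x y := rfl

/-- The powers of isomorphic groups. -/
def fin_congr {X Y : Type*} [AddCommGroup X] [AddCommGroup Y] {d : ℕ} (e : X ≃+ Y) : (Fin d → X) ≃+ (Fin d → Y) where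
  toFun x := fun i => e (x i)
  invFun y := fun i => e.symm (y i)
  left_inv x := funext fun i => e.symm_apply_apply (x i)
  right_inv y := funext fun i => e.apply_symm_apply (y i)
  map_add' x y := funext fun i => map_add e (x i) (y i)

open Classical in
theorem bridge_short_iso {K : Type} [Field K] [NumberField K] (W : WeierstrassCurve K) [W.IsShortNF] [W.IsElliptic] {p : ℕ} (hp : p.Prime)
    (hp2 : p ≠ 2) : Nonempty (ShaG p K W ≃+ pg (galS W (AlgebraicClosure K)).Sha p) := by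
  have hodd : ∀ k : ℕ, Odd (p ^ k) := fun k => (hp.odd_of_ne_two hp2).pow
  refine quot_iso (ZSha W.toAffine (AlgebraicClosure K)) (galS W (AlgebraicClosure K)).Z
    (BSha W.toAffine (AlgebraicClosure K)) p ?_
  rintro c ⟨k, hk⟩
  have hcoc : IsCocycle W.toAffine (AlgebraicClosure K) c →
      (EverywhereTriv W.toAffine (AlgebraicClosure K) c ↔
        TrivV W.toAffine (AlgebraicClosure K) c) :=
    fun h => b6_key W.toAffine c h (hodd k) hk
  constructor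
  · rintro ⟨h1, h2⟩
    have h3 := (hcoc h1).1 h2
    refine ⟨h1.1, ?_, ?_⟩
    · obtain ⟨L, hL, h4⟩ := h1.2
      exact ⟨_, ⟨L, hL, rfl⟩, h4⟩
    · rintro _ ⟨V, hV, rfl⟩
      obtain ⟨P, hP⟩ := h3 V hV
      exact ⟨P, fun g hg => hP g hg⟩
  · intro h
    have h' : (galS W (AlgebraicClosure K)).IsZ c := h
    have h1 : IsCocycle W.toAffine (AlgebraicClosure K) c := by
      refine ⟨h'.mul, ?_⟩
      obtain ⟨_, ⟨L, hL, rfl⟩, h4⟩ := h'.cont
      exact ⟨L, hL, h4⟩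
    refine ⟨h1, (hcoc h1).2 ?_⟩
    intro V hV
    obtain ⟨P, hP⟩ := h'.loc _ ⟨V, hV, rfl⟩
    exact ⟨P, fun g hg => hP g hg⟩

open Classical in
theorem bridge_iso {K : Type} [Field K] [NumberField K] (W : WeierstrassCurve K) [W.IsElliptic] {p : ℕ} (hp : p.Prime) (hp2 : p ≠ 2) :
    Nonempty (ShaG p K W ≃+ pg (galS W (AlgebraicClosure K)).Sha p) := by
  haveI : Invertible (2 : K) := invertibleOfNonzero two_ne_zero
  haveI : Invertible (3 : K) := invertibleOfNonzero three_ne_zero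
  obtain ⟨C, hC⟩ := W.exists_variableChange_isShortNF
  have D := H19Z.ZL1_rel W C
  haveI : (C • W).toAffine.IsElliptic := inferInstanceAs (C • W).IsElliptic
  haveI : W.toAffine.IsElliptic := inferInstanceAs W.IsElliptic
  obtain ⟨f⟩ := H19Q.sha_iso (W := (C • W).toAffine) (W' := W.toAffine) D (AlgebraicClosure K)
  have h1 : Nonempty (ShaG p K (C • W) ≃+ ShaG p K W) := by
    refine pg_iso (X := H16C.Sha (C • W).toAffine (AlgebraicClosure K)) (Y := H16C.Sha W.toAffine (AlgebraicClosure K)) hp (m := 1)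
      hp.not_dvd_one f.toAddMonoidHom f.symm.toAddMonoidHom (fun x => ?_) (fun x => ?_)
    · rw [one_nsmul]
      exact f.symm_apply_apply x
    · rw [one_nsmul]
      exact f.apply_symm_apply x
  have h2 := bridge_short_iso (C • W) hp hp2
  have h3 : Nonempty (pg (galS (C • W) (AlgebraicClosure K)).Sha p ≃+ pg (galS W (AlgebraicClosure K)).Sha p) := by
    refine hom_iso hp (m := 1) hp.not_dvd_one (b7_hom (W := C • W) (W' := W) D (Ω := AlgebraicClosure K))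
      (b7_hom' (W := C • W) (W' := W) D (Ω := AlgebraicClosure K)) (fun _ => rfl) (fun _ => rfl) (fun a => ?_) (fun a => ?_)
    · rw [one_nsmul]
      exact (H19Q.fe (W := (C • W).toAffine) (W' := W.toAffine) D (AlgebraicClosure K)).symm_apply_apply a
    · rw [one_nsmul]
      exact (H19Q.fe (W := (C • W).toAffine) (W' := W.toAffine) D (AlgebraicClosure K)).apply_symm_apply a
  obtain ⟨a⟩ := h1
  obtain ⟨b⟩ := h2
  obtain ⟨c⟩ := h3
  exact ⟨a.symm.trans (b.trans c)⟩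

section L7

open H55P (IQ UnrP ac)
open H55K H55K.TQ

open Classical in
theorem iso_KG {F : Type} [Field F] [NumberField F] [IQ F] {W : WeierstrassCurve ℤ} {Om : ℂ} {m : Ideal (𝓞 F)} {ψ : Ideal (𝓞 F) →*₀ 𝓞 F}
    (hH : BaseH F (W⁄(𝓞 F)) Om m ψ) {p : ℕ} (hp : p.Prime) (hp2 : p ≠ 2) (hU : UnrP p F) (K : Type) [Field K] [NumberField K]
    (ι : K →ₐ[ℚ] AlgebraicClosure F) [NumberField (KG F K ι)] :
    ∃ d : ℕ, 0 < d ∧ Module.finrank ℚ (KG F K ι) = d * Module.finrank ℚ K ∧ Nonempty ((Fin d → ShaG p K (W⁄K)) ≃+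
      pg ((galS ((W⁄(𝓞 F))⁄F) (AlgebraicClosure F)).res (KG F K ι).fixingSubgroup).Sha p) := by
  have hQF := tower_QFF F
  have hQA := alg_QFF F
  have hd0 : W.Δ ≠ 0 := by
    intro h
    apply hH.data.ell
    have e := WeierstrassCurve.map_Δ W (algebraMap ℤ (𝓞 F))
    rw [h, map_zero] at e
    exact e
  have hellK : (W⁄K).IsElliptic := by
    rw [WeierstrassCurve.isElliptic_iff]
    have e := WeierstrassCurve.map_Δ W (algebraMap ℤ K)
    refine IsUnit.mk0 _ ?_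
    intro h
    apply hd0
    have h1 : (algebraMap ℤ K) W.Δ = 0 := e.symm.trans h
    rw [eq_intCast] at h1
    exact_mod_cast h1
  have e1 : ((W⁄ℚ)⁄F) = ((W⁄(𝓞 F))⁄F) := by
    rw [fb9b_map, fb9b_map]
  have e2 : ((W⁄ℚ)⁄K) = (W⁄K) := fb9b_map W
  obtain ⟨c1⟩ := bridge_iso (W⁄K) hp hp2
  have c2 := closure_iso (k := ℚ) (W⁄ℚ) K ι hp
  rw [e2] at c2
  obtain ⟨c2⟩ := c2
  have c3 := base_isoX (k := ℚ) (W⁄ℚ) (KG F K ι) hp
  rw [e1] at c3
  obtain ⟨c3⟩ := c3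
  obtain ⟨hle, ⟨hG, hf⟩ | ⟨hi, hf, hs⟩⟩ := kg_index K ι
  · refine ⟨1, one_pos, by rw [one_mul, hf], ?_⟩
    have c4 : Nonempty (pg ((galS (W⁄ℚ) (AlgebraicClosure F)).res ι.fieldRange.fixingSubgroup).Sha p ≃+
        pg ((galS (W⁄ℚ) (AlgebraicClosure F)).res ((KG F K ι).restrictScalars ℚ).fixingSubgroup).Sha p) := by
      rw [hG]
      exact ⟨AddEquiv.refl _⟩
    obtain ⟨c4⟩ := c4
    exact ⟨fin_one.trans (((c1.trans c2).trans c4).trans c3.symm)⟩
  · refine ⟨2, two_pos, hf, ?_⟩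
    have hKQ : FiniteDimensional ℚ ((KG F K ι).restrictScalars ℚ) := by
      have : FiniteDimensional F (KG F K ι) := FiniteDimensional.right ℚ F (KG F K ι)
      have : FiniteDimensional ℚ (KG F K ι) := Module.Finite.trans F (KG F K ι)
      exact this
    obtain ⟨δ, hδ, hδp⟩ := nk2_delta (F := F) hp hp2 hU
    obtain ⟨α, a1, a2, a3⟩ := exists_sd hH δ hδ
    obtain ⟨h3⟩ := index_two_iso (S := (galS (W⁄ℚ) (AlgebraicClosure F)).res ι.fieldRange.fixingSubgroup)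
      (conj_res (galS_conj (W⁄ℚ) (AlgebraicClosure F)) _)
      (((KG F K ι).restrictScalars ℚ).fixingSubgroup.subgroupOf ι.fieldRange.fixingSubgroup)
      ⟨_, ⟨_, ⟨(KG F K ι).restrictScalars ℚ, hKQ, rfl⟩, rfl⟩, le_rfl⟩ hi hp hp2 hδp α a1
      (fun h hh P => (a2 _ ((hs _ h.2).1 hh) P).symm)
      (fun g hg P => by
        have h4 := a3 _ ((hs _ g.2).2 hg) P
        show α (ac (W⁄ℚ) (g : AlgebraicClosure F ≃ₐ[ℚ] AlgebraicClosure F) P) =
          -(ac (W⁄ℚ) (g : AlgebraicClosure F ≃ₐ[ℚ] AlgebraicClosure F) (α P))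
        rw [h4, neg_neg])
    obtain ⟨h5⟩ := res_res_iso (galS (W⁄ℚ) (AlgebraicClosure F)) hle hp
    exact ⟨(fin_congr (c1.trans c2)).trans ((h3.trans h5).trans c3.symm)⟩

end L7

end H35KK
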