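import Mathlib
import Pool.Agent.Lib.H35KK.X1
import Pool.Agent.Lib.H35KK.X3
import Pool.Agent.Lib.H13V.D
import Pool.Agent.Lib.H13T.C11
import Pool.Agent.Lib.H41V.Q6

/-! # H35KK, X4: from the p-primary part of Sha over FK to the p-primary part of Sha over K -/

open NumberField IsDedekindDomain WeierstrassCurve

namespace H35KK

open H55P (IQ UnrP Pt)
open H55K H55K.TQ
open H13T (AnR AnW emb exists_dta)
open H13V (ShaG CycT eK tk pg mem_tk)
open H41V (q_leT q_prodT q_powT eI)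
open SSG (galS)

section card

variable {F : Type} [Field F] [NumberField F] [IQ F] {W₀ : WeierstrassCurve (𝓞 F)} {Om : ℂ} {m : Ideal (𝓞 F)} {ψ : Ideal (𝓞 F) →*₀ 𝓞 F} {p : ℕ}

open Classical in
/-- The number of the points killed by p^k. -/
theorem card_pk (hH : BaseH F W₀ Om m ψ) (hp : PrimeH F W₀ p) (k : ℕ) :
    Nat.card {T : Pt (W₀⁄F) (AlgebraicClosure F) // p ^ k • T = 0} = p ^ (2 * k) := by
  obtain ⟨A, B, j, act, hA, hB, hD⟩ := exists_dta hH hp
  obtain ⟨r, s, t, Θ, -, -, -⟩ := H13R.r6_iso (Ω := AlgebraicClosure F) W₀ hH.data.ell hA hB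
  have hp0 : ((p ^ k : ℕ) : 𝓞 F) ≠ 0 := by exact_mod_cast pow_ne_zero k hp.prime.ne_zero
  have h1 := tor_card hD.cma hp0
  rw [Nm_nat] at h1
  have h2 : ∀ T : Pt (H35P.WAB A B) (AlgebraicClosure F), act ((p ^ k : ℕ) : 𝓞 F) T = p ^ k • T := by
    intro T
    rw [map_natCast]
    exact AddMonoid.End.natCast_apply (p ^ k) T
  rw [mul_comm, pow_mul, ← h1]
  refine (Nat.card_congr (Equiv.subtypeEquiv Θ.toEquiv fun T => ?_)).symm
  show T ∈ Tor act ((p ^ k : ℕ) : 𝓞 F) ↔ p ^ k • Θ T = 0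
  rw [← map_nsmul, map_eq_zero_iff Θ Θ.injective, ← h2]
  exact Iff.rfl

open Classical in
/-- The number of the points killed by p^i and p^k. -/
theorem ck_tk (hH : BaseH F W₀ Om m ψ) (hp : PrimeH F W₀ p) (i k : ℕ) :
    ck p k (tk (Pt (W₀⁄F) (AlgebraicClosure F)) p i) = p ^ (2 * min i k) := by
  rw [← card_pk hH hp (min i k)]
  unfold ck
  refine Nat.card_congr ⟨fun x => ⟨x.1.1, ?_⟩, fun T => ⟨⟨T.1, ?_⟩, ?_⟩, fun x => rfl, fun T => rfl⟩
  · rcases min_choice i k with h | h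
    · rw [h]
      exact x.1.2
    · rw [h]
      exact congrArg Subtype.val x.2
  · rw [mem_tk]
    obtain ⟨c, hc⟩ := pow_dvd_pow p (min_le_left i k)
    rw [hc, mul_comm, mul_smul, T.2, smul_zero]
  · apply Subtype.ext
    show p ^ k • T.1 = 0
    obtain ⟨c, hc⟩ := pow_dvd_pow p (min_le_right i k)
    rw [hc, mul_comm, mul_smul, T.2, smul_zero]

open Classical in
theorem fin_tk (hH : BaseH F W₀ Om m ψ) (hp : PrimeH F W₀ p) (i : ℕ) : Finite (tk (Pt (W₀⁄F) (AlgebraicClosure F)) p i) := by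
  apply Nat.finite_of_card_ne_zero
  have h := card_pk hH hp i
  have h1 : Nat.card (tk (Pt (W₀⁄F) (AlgebraicClosure F)) p i) = p ^ (2 * i) := h
  rw [h1]
  exact pow_ne_zero _ hp.prime.ne_zero

end card

/-- Products of cyclic groups. -/
theorem zmod_pow {p : ℕ} {κ : Type*} {e b : κ → ℕ} (h : ∀ j, e j = p ^ b j) {X : Type*} [AddCommGroup X]
    (hX : Nonempty (X ≃+ ((j : κ) → ZMod (p ^ b j) × ZMod (p ^ b j)))) : Nonempty (X ≃+ ((j : κ) → ZMod (e j) × ZMod (e j))) := by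
  obtain rfl : e = fun j => p ^ b j := funext h
  exact hX

variable {F : Type} [Field F] [NumberField F] [IQ F] {p n t : ℕ} {M K' K : Type} [Field M] [NumberField M]
    [Field K'] [NumberField K'] [Field K] [NumberField K] [Algebra M K'] [Algebra K' K] [Algebra M K]

open Classical in
/-- The p-primary part of Sha over K from the p-primary part of Sha over FK. -/
theorem kk_main {W : WeierstrassCurve ℤ} {Om : ℂ} {m : Ideal (𝓞 F)} {ψ : Ideal (𝓞 F) →*₀ 𝓞 F} (hH : BaseH F (W⁄(𝓞 F)) Om m ψ)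
    (hp : PrimeH F (W⁄(𝓞 F)) p) (h : CycT p n t M K' K) (hU : UnrP p K) (ιK : K →ₐ[ℚ] AlgebraicClosure F)
    (ex : AnW p (W⁄(𝓞 F)) (KG F K' (emb ιK : K' →ₐ[ℚ] AlgebraicClosure F)) (KG F K ιK) → ℕ)
    (hex : ∀ w, eI (q_leT h ιK).2 w.1 = p ^ ex w)
    (hS : Nonempty (pg ((galS ((W⁄(𝓞 F))⁄F) (AlgebraicClosure F)).res (KG F K ιK).fixingSubgroup).Sha p ≃+
      ((w : AnW p (W⁄(𝓞 F)) (KG F K' (emb ιK : K' →ₐ[ℚ] AlgebraicClosure F)) (KG F K ιK)) →
        tk (Pt ((W⁄(𝓞 F))⁄F) (AlgebraicClosure F)) p (ex w)))) :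
    Nonempty (ShaG p K (W⁄K) ≃+ ((w : AnR p W K' K) → ZMod (eK K w.1) × ZMod (eK K w.1))) := by
  have hpp := hp.prime
  have hp2 : p ≠ 2 := by
    have := hp.five
    omega
  obtain ⟨d, hd, hdK, ⟨f⟩⟩ := iso_KG hH hpp hp2 hp.unr K ιK
  obtain ⟨d', -, hdK', hR, hW, -, -, hprod⟩ := q_prodT hpp hp2 h hU hH ιK
  have hdd : d' = d := by
    rw [hdK] at hdK'
    exact (Nat.eq_of_mul_eq_mul_right Module.finrank_pos hdK').symm
  subst hdd
  obtain ⟨g⟩ := hS
  have hfR : Fintype (AnR p W K' K) := hR.fintype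
  have hfW : Fintype (AnW p (W⁄(𝓞 F)) (KG F K' (emb ιK : K' →ₐ[ℚ] AlgebraicClosure F)) (KG F K ιK)) := hW.fintype
  choose b hb1 hb using fun w : AnR p W K' K => q_powT hpp h w.1
  refine zmod_pow (b := b) hb (desc hpp hd ⟨f.trans g⟩ ex b (fun i k => ck_tk hH hp (ex i) k) (fun i => fin_tk hH hp (ex i))
    (fun i x => ⟨ex i, Subtype.ext x.2⟩) fun γ => ?_)
  have h1 := hprod (fun e => γ (e.factorization p))
  rw [finprod_eq_prod_of_fintype, finprod_eq_prod_of_fintype] at h1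
  have h2 : ∀ i : ℕ, (p ^ i).factorization p = i := fun i => by
    rw [hpp.factorization_pow]
    simp
  simp only [hex, hb, h2] at h1
  exact h1

end H35KK
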