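import Mathlib
import Pool.Agent.Lib.H35KK.X3
import Pool.Agent.Lib.H28I.D

/-! # H35KK, X5: isogenies of degree prime to p -/

open NumberField IsDedekindDomain WeierstrassCurve

namespace H35KK

open H55P (Pt ac)
open H13V (ShaG pg)
open SSG (galS)

open Classical in
/-- An isogeny with a map back, of degree dividing a power of 6, is an isomorphism on the p-primary parts. -/
theorem iso6_iso {K : Type} [Field K] {W₁ W₂ : WeierstrassCurve K} {Ω : Type} [Field Ω] [Algebra K Ω] (h : H28I.Iso6 W₁ W₂ Ω) {p : ℕ}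
    (hp : p.Prime) (h5 : 5 ≤ p) : Nonempty (pg (galS W₁ Ω).Sha p ≃+ pg (galS W₂ Ω).Sha p) := by
  obtain ⟨Φ, Ψ, h1, h2, h3, h4⟩ := h
  have hm : ¬ p ∣ 6 := by
    intro hd
    have h6 := Nat.le_of_dvd (by norm_num) hd
    interval_cases p <;> revert hp hd <;> decide
  have H1 : SSG.Hom (galS W₁ Ω) (galS W₂ Ω) (MonoidHom.id (Ω ≃ₐ[K] Ω)) Φ :=
    ⟨fun g a => h3 g a, fun u hu => ⟨u, hu, fun g hg => hg⟩, fun d hd => ⟨d, hd, fun g hg => hg⟩⟩
  have H2 : SSG.Hom (galS W₂ Ω) (galS W₁ Ω) (MonoidHom.id (Ω ≃ₐ[K] Ω)) Ψ :=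
    ⟨fun g a => h4 g a, fun u hu => ⟨u, hu, fun g hg => hg⟩, fun d hd => ⟨d, hd, fun g hg => hg⟩⟩
  exact hom_iso hp hm H1 H2 (fun g => rfl) (fun g => rfl) h1 h2

open Classical in
/-- The p-primary part of the Tate-Shafarevich group does not change under isogenies of degree prime to p. -/
theorem x4 {K : Type} [Field K] [NumberField K] {W₁ W₂ : WeierstrassCurve K} [W₁.IsElliptic] [W₂.IsElliptic] {p : ℕ}
    (h : H28I.Iso6 W₁ W₂ (AlgebraicClosure K)) (hp : p.Prime) (h5 : 5 ≤ p) : Nonempty (ShaG p K W₁ ≃+ ShaG p K W₂) := by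
  have h2 : p ≠ 2 := by omega
  obtain ⟨a⟩ := bridge_iso W₁ hp h2
  obtain ⟨b⟩ := bridge_iso W₂ hp h2
  obtain ⟨c⟩ := iso6_iso h hp h5
  exact ⟨a.trans (c.trans b.symm)⟩

end H35KK
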